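import Mathlib
import Pool.Agent.R322.PB.Core
import Pool.Agent.R322.PB.Step3
import Pool.Agent.R322.PB.Small
import Pool.Agent.R322.PB.Step4
import Pool.Agent.R322.PB.Cls

/-!
# MP_c73f8e_nt: only two groups have a perfect restricted `s`-basis of size `2s+1`

For every `s ≥ 1`, a finite abelian group of order `2 ^ (2 s)` with a perfect restricted
`s`-basis of size `2 s + 1` is isomorphic to `ℤ₂ ^ (2s)` or to `ℤ₂ ^ (2s-2) × ℤ₄`.
-/

set_option autoImplicit false

namespace Pool.Agent.Results.MP_c73f8e_nt.OnlyTwoGroups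

open Finset

/-- `A` is a perfect restricted `s`-basis of `G`: every `g : G` is the sum of the elements of
exactly one subset `B ⊆ A` with at most `s` elements. -/
def IsPerfectRestrictedBasis {G : Type*} [AddCommGroup G] (s : ℕ) (A : Finset G) : Prop :=
  ∀ g : G, ∃! B : Finset G, B ⊆ A ∧ B.card ≤ s ∧ ∑ b ∈ B, b = g

theorem result : ∀ s : ℕ, 1 ≤ s → ∀ (G : Type*) [AddCommGroup G] [Finite G],
    Nat.card G = 2 ^ (2 * s) →
    (∃ A : Finset G, A.card = 2 * s + 1 ∧ IsPerfectRestrictedBasis s A) →
    Nonempty (G ≃+ (Fin (2 * s) → ZMod 2)) ∨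
      Nonempty (G ≃+ (Fin (2 * s - 2) → ZMod 2) × ZMod 4) := by
  classical
  intro s hs G _ _ hcard ⟨A, hA, hP⟩
  have h : R322.PB.Perf s A := hP
  rcases R322.PB.classify h hA hs hcard with h1 | ⟨b, hb, hb2, h1⟩
  · left
    apply R322.PB.elem (2 * s) hcard
    intro g
    obtain ⟨B, ⟨hBA, -, hBg⟩, -⟩ := h g
    rw [← hBg, Finset.smul_sum]
    exact Finset.sum_eq_zero fun a ha => h1 a (hBA ha)
  · right
    have hb0 : b ≠ 0 := R322.PB.F0 h hs hb
    obtain ⟨a, ha, hab⟩ : ∃ a ∈ A, a ≠ b := by
      by_contra hcon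
      push Not at hcon
      have : A ⊆ {b} := fun a ha => by rw [mem_singleton]; exact hcon a ha
      have := card_le_card this
      rw [card_singleton, hA] at this
      omega
    have hcl : ∀ B : Finset G, B ⊆ A → (2 • ∑ x ∈ B, x = 0 ∨ 2 • ∑ x ∈ B, x = b) := by
      intro B
      induction B using Finset.induction_on with
      | empty => intro _; left; simp
      | insert x B hx ih =>
        intro hsub
        have hxA : x ∈ A := hsub (mem_insert_self _ _)
        have hBA : B ⊆ A := (subset_insert _ _).trans hsub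
        rw [sum_insert hx, smul_add]
        have hx2 : 2 • x = 0 ∨ 2 • x = b := by
          by_cases hxb : x = b
          · left; rw [hxb]; exact hb2
          · right; exact h1 x hxA hxb
        rcases hx2 with hx2 | hx2 <;> rcases ih hBA with hi | hi
        · left; rw [hx2, hi, add_zero]
        · right; rw [hx2, hi, zero_add]
        · right; rw [hx2, hi, add_zero]
        · left; rw [hx2, hi, ← two_nsmul]; exact hb2
    have hn : 2 * s = (2 * s - 2) + 2 := by omega
    apply R322.PB.four (2 * s - 2) (by rw [hcard, ← hn]) b a hb0 hb2 (h1 a ha hab)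
    intro g
    obtain ⟨B, ⟨hBA, -, hBg⟩, -⟩ := h g
    rw [← hBg]
    exact hcl B hBA

end Pool.Agent.Results.MP_c73f8e_nt.OnlyTwoGroups
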